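import Pool.Agent.Work.MP_32aa60_lc.H39Defs
import Pool.Agent.Work.MP_32aa60_lc.GP.B

/-!
Q1: CONVEX-PARTITION is APX-hard, already for configurations with no three collinear points.
-/

namespace Pool.Agent.Results.MP_32aa60_lc.ApxHardGeneralPosition

open Pool.Agent.Work.MP_32aa60_lc N68a2faeb

theorem result : ∀ A : NPO, A.InAPX →
    ∃ (f : List Bool × List Bool → List (ℚ × ℚ))
      (g : (List Bool × List Bool) × List (List (ℚ × ℚ)) → List Bool) (α : ℕ),
      0 < α ∧ IsPolyTime f ∧ IsPolyTime g ∧
      ∀ (k : ℕ) (x : List Bool), 1 ≤ k → A.Feasible x →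
        (f (x, List.replicate k true)).Nodup ∧ f (x, List.replicate k true) ≠ [] ∧
        (∀ p ∈ f (x, List.replicate k true), ∀ q ∈ f (x, List.replicate k true),
          ∀ r ∈ f (x, List.replicate k true), p ≠ q → p ≠ r → q ≠ r →
          ¬ Collinear ℝ {toPlane p, toPlane q, toPlane r}) ∧
        ∀ y, IsPartition (f (x, List.replicate k true)) y →
          A.sol (x, g ((x, List.replicate k true), y)) = true ∧
          ((y.length : ℝ) ≤ (1 + 1 / ((α : ℝ) * k)) * CP (f (x, List.replicate k true)) →
            A.Approx (1 + 1 / (k : ℝ)) x (g ((x, List.replicate k true), y))) :=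
  GP.reduces

end Pool.Agent.Results.MP_32aa60_lc.ApxHardGeneralPosition
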